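import Mathlib
import Pool.Agent.Helper679.CGProof

set_option autoImplicit false

/-!
The move number `M(q)` of the Maker-Breaker clique game on the infinite complete graph:
`M(q) ≥ 2 ^ ((2 - √2) q - 5)` for all `q ≥ 3`.
-/

namespace Pool.Agent.Results.MP_278060_co.LowerBound

open Pool.Agent.Helper679.CliqueGame
open scoped ENNReal

lemma makerEdges_mono (μ β : Strategy) {m n : ℕ} (h : m ≤ n) :
    makerEdges μ β m ⊆ makerEdges μ β n := by
  rintro e ⟨i, hi, rfl⟩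
  exact ⟨i, by omega, rfl⟩

lemma makerWins_mono {q m n : ℕ} (h : m ≤ n) (hm : MakerWinsWithin q m) :
    MakerWinsWithin q n := by
  obtain ⟨μ, hμ⟩ := hm
  refine ⟨μ, fun β hc => hμ β ?_⟩
  exact hc.anti (SimpleGraph.fromEdgeSet_mono (makerEdges_mono μ β h))

lemma not_makerWins {q m : ℕ} (h : BreakerPrevents q m) : ¬ MakerWinsWithin q m := by
  rintro ⟨μ, hμ⟩
  obtain ⟨β, hβ⟩ := h
  exact hμ β (hβ μ)

lemma lt_moveNumber {q m : ℕ} (h : BreakerPrevents q m) : (m : ℕ∞) < moveNumber q := by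
  have h1 : ((m + 1 : ℕ) : ℕ∞) ≤ moveNumber q := by
    refine le_iInf fun n => ?_
    have h2 : ¬ (n : ℕ) ≤ m := fun hn => not_makerWins h (makerWins_mono hn n.2)
    exact_mod_cast (by omega : m + 1 ≤ (n : ℕ))
  refine lt_of_lt_of_le ?_ h1
  exact_mod_cast Nat.lt_succ_self m

/-- Sanity check: if finite, the move number is the least `m` for which Maker wins within `m`
moves. -/
lemma moveNumber_eq_iff (q m : ℕ) :
    moveNumber q = m ↔ IsLeast {m : ℕ | MakerWinsWithin q m} m := by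
  have hlb : ∀ n : ℕ, MakerWinsWithin q n → moveNumber q ≤ n := fun n hn =>
    iInf_le (fun m : {m : ℕ // MakerWinsWithin q m} => ((m : ℕ) : ℕ∞)) ⟨n, hn⟩
  constructor
  · intro h
    have hne : MakerWinsWithin q m := by
      by_contra hcon
      have h1 : ((m + 1 : ℕ) : ℕ∞) ≤ moveNumber q := by
        refine le_iInf fun n => ?_
        have h2 : ¬ (n : ℕ) ≤ m := fun hn => hcon (makerWins_mono hn n.2)
        exact_mod_cast (by omega : m + 1 ≤ (n : ℕ))
      rw [h] at h1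
      have : m + 1 ≤ m := by exact_mod_cast h1
      omega
    refine ⟨hne, fun n hn => ?_⟩
    have h1 := hlb n hn
    rw [h] at h1
    exact_mod_cast h1
  · rintro ⟨h1, h2⟩
    refine le_antisymm (hlb m h1) (le_iInf fun n => ?_)
    exact_mod_cast h2 n.2

/-- The criterion for Breaker. -/
theorem criterion (q c m : ℕ) (hq : 2 ≤ q) (hc : 2 * c ≤ q)
    (h : 3 * (8 * m) ^ (q - 2 * c) * (4 * m) ^ c ≤ 2 ^ (q.choose 2 - c ^ 2)) :
    BreakerPrevents q m := by
  rcases Nat.eq_zero_or_pos m with rfl | hm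
  · refine ⟨brk 0 0 le_rfl le_rfl, fun μ => ?_⟩
    have h1 : makerGraph μ (brk 0 0 le_rfl le_rfl) 0 = ⊥ := by
      have : makerEdges μ (brk 0 0 le_rfl le_rfl) 0 = ∅ := by
        ext e; simp [makerEdges]
      rw [makerGraph, this, SimpleGraph.fromEdgeSet_empty]
    rw [h1]
    exact SimpleGraph.cliqueFree_bot hq
  have hm' : (0 : ℝ) < m := by exact_mod_cast hm
  have hm1 : (1 : ℝ) ≤ m := by exact_mod_cast hm
  set x : ℝ := 1 / (8 * m) with hx
  set y : ℝ := 1 / (4 * m) with hy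
  have hx0 : 0 < x := by positivity
  have hy0 : 0 < y := by positivity
  have hx1 : x ≤ 1 := by
    rw [hx, div_le_one (by positivity)]; linarith
  refine ⟨brk x y hx0.le hy0.le, fun μ K hK => ?_⟩
  obtain ⟨n, rfl⟩ : ∃ n, m = n + 1 := ⟨m - 1, by omega⟩
  obtain ⟨p1, p2, p3, p4, p5⟩ := pot_play hx0.le hx1 hy0.le μ n
  set β := brk x y hx0.le hy0.le with hβ
  set h' := μ.move (hist μ β n) :: hist μ β n with hh
  rw [SimpleGraph.isNClique_iff, SimpleGraph.isClique_iff] at hK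
  obtain ⟨hK1, hK2⟩ := hK
  have hKm : ∀ u ∈ K, ∀ v ∈ K, u ≠ v → s(u, v) ∈ makerOf h' := by
    intro u hu v hv huv
    rw [p4]
    have := hK1 hu hv huv
    rw [makerGraph, SimpleGraph.fromEdgeSet_adj] at this
    exact this.1
  have hact := exists_active (makerOf h') p3 K hKm (by omega) c (by omega)
  rw [hK2] at hact
  have hwt : wt (makerOf h').toFinset (breakerOf h').toFinset K = 1 := by
    refine Finset.prod_eq_one fun g hg => ?_
    unfold phi
    by_cases hd : g.IsDiag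
    · rw [if_pos hd]
    · rw [if_neg hd, if_pos]
      induction g using Sym2.ind with
      | _ u v =>
      rw [Finset.mk_mem_sym2_iff] at hg
      rw [List.mem_toFinset]
      exact hKm u hg.1 v hg.2 (by simpa using hd)
  have hle : lam x y (q - 2 * c) c ≤
      pot x y (makerOf h') (breakerOf h').toFinset := by
    have h1 : val x y (makerOf h').toFinset (breakerOf h').toFinset (K, q - 2 * c, c) ≤
        pot x y (makerOf h') (breakerOf h').toFinset := by
      unfold pot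
      refine Multiset.single_le_sum (fun z hz => ?_) _ (Multiset.mem_map_of_mem _ hact)
      obtain ⟨S, -, rfl⟩ := Multiset.mem_map.1 hz
      exact val_nonneg hx0.le hy0.le _ _ S
    simpa only [val, hwt, mul_one] using h1
  have hxy : 1 + y + 6 * x = 1 + 1 / ((n + 1 : ℕ) : ℝ) := by
    rw [hx, hy]; field_simp; ring
  have hexp : (1 + 1 / ((n + 1 : ℕ) : ℝ)) ^ (n + 1) < 3 := by
    have h1 : (1 + 1 / ((n + 1 : ℕ) : ℝ)) ≤ Real.exp (1 / ((n + 1 : ℕ) : ℝ)) := by
      have := Real.add_one_le_exp (1 / ((n + 1 : ℕ) : ℝ))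
      linarith
    calc (1 + 1 / ((n + 1 : ℕ) : ℝ)) ^ (n + 1)
        ≤ Real.exp (1 / ((n + 1 : ℕ) : ℝ)) ^ (n + 1) :=
          pow_le_pow_left₀ (by positivity) h1 _
      _ = Real.exp 1 := by
          rw [← Real.exp_nat_mul]
          congr 1
          field_simp
      _ < 3 := by
          have := Real.exp_one_lt_d9
          linarith
  rw [hxy] at p5
  have hlam : lam x y (q - 2 * c) c < 3 := lt_of_le_of_lt (hle.trans p5) hexp
  -- compare the exponents
  have hE : q.choose 2 - c ^ 2 = (q - 2 * c).choose 2 + 2 * (q - 2 * c) * c + 2 * c.choose 2 := by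
    obtain ⟨r, rfl⟩ : ∃ r, q = r + 2 * c := ⟨q - 2 * c, by omega⟩
    have h1 : r + 2 * c - 2 * c = r := by omega
    rw [h1]
    have key : (r + 2 * c).choose 2 = r.choose 2 + 2 * r * c + 2 * c.choose 2 + c ^ 2 := by
      have e1 : ∀ t : ℕ, ((t.choose 2 : ℕ) : ℚ) = t * (t - 1) / 2 := fun t => Nat.cast_choose_two ℚ t
      have : (((r + 2 * c).choose 2 : ℕ) : ℚ) =
          ((r.choose 2 + 2 * r * c + 2 * c.choose 2 + c ^ 2 : ℕ) : ℚ) := by
        push_cast
        rw [e1, e1, e1]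
        push_cast
        ring
      exact_mod_cast this
    omega
  rw [hE] at h
  unfold lam at hlam
  set E := (q - 2 * c).choose 2 + 2 * (q - 2 * c) * c + 2 * c.choose 2 with hEdef
  have h2 : (3 : ℝ) * (8 * ((n + 1 : ℕ) : ℝ)) ^ (q - 2 * c) * (4 * ((n + 1 : ℕ) : ℝ)) ^ c ≤ 2 ^ E := by
    exact_mod_cast h
  have h3 : x ^ (q - 2 * c) * (8 * ((n + 1 : ℕ) : ℝ)) ^ (q - 2 * c) = 1 := by
    rw [← mul_pow, hx, one_div_mul_cancel (by positivity), one_pow]
  have h4 : y ^ c * (4 * ((n + 1 : ℕ) : ℝ)) ^ c = 1 := by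
    rw [← mul_pow, hy, one_div_mul_cancel (by positivity), one_pow]
  have h5 : x ^ (q - 2 * c) * y ^ c * (3 * (8 * ((n + 1 : ℕ) : ℝ)) ^ (q - 2 * c) *
      (4 * ((n + 1 : ℕ) : ℝ)) ^ c) ≤ x ^ (q - 2 * c) * y ^ c * 2 ^ E :=
    mul_le_mul_of_nonneg_left h2 (by positivity)
  have h6 : x ^ (q - 2 * c) * y ^ c * (3 * (8 * ((n + 1 : ℕ) : ℝ)) ^ (q - 2 * c) *
      (4 * ((n + 1 : ℕ) : ℝ)) ^ c) = 3 := by
    calc _ = 3 * (x ^ (q - 2 * c) * (8 * ((n + 1 : ℕ) : ℝ)) ^ (q - 2 * c)) *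
          (y ^ c * (4 * ((n + 1 : ℕ) : ℝ)) ^ c) := by ring
      _ = 3 := by rw [h3, h4]; ring
  linarith

/-- Breaker survives `2 ^ ((2 - √2) q - 5)` moves. -/
theorem prevents (q : ℕ) (hq : 3 ≤ q) (m : ℕ) (hm : (m : ℝ) < 2 ^ ((2 - √2) * q - 5)) :
    BreakerPrevents q m := by
  have hs : √2 ^ 2 = 2 := Real.sq_sqrt (by norm_num)
  have hs1 : 1.41 < √2 := by
    rw [Real.lt_sqrt (by norm_num)]; norm_num
  have hs2 : √2 < 1.42 := by
    rw [Real.sqrt_lt' (by norm_num)]; norm_num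
  have hq' : (3 : ℝ) ≤ q := by exact_mod_cast hq
  have hg0 : 0 ≤ (1 - √2 / 2) * q := by
    apply mul_nonneg <;> linarith
  set c := ⌊(1 - √2 / 2) * q⌋₊ with hc
  have hc1 : (c : ℝ) ≤ (1 - √2 / 2) * q := Nat.floor_le hg0
  have hc2 : (1 - √2 / 2) * q < c + 1 := Nat.lt_floor_add_one _
  have hcq' : (2 : ℝ) * c ≤ q := by nlinarith
  have hcq : 2 * c ≤ q := by exact_mod_cast hcq'
  have hcc : c ^ 2 ≤ q.choose 2 := by
    have h1 : ((q.choose 2 : ℕ) : ℝ) = q * (q - 1) / 2 := Nat.cast_choose_two ℝ q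
    have h2 : ((c ^ 2 : ℕ) : ℝ) ≤ ((q.choose 2 : ℕ) : ℝ) := by
      rw [h1]; push_cast
      nlinarith
    exact_mod_cast h2
  refine criterion q c m (by omega) hcq ?_
  have hmain : (3 : ℝ) * (8 * m) ^ (q - 2 * c) * (4 * m) ^ c ≤ 2 ^ (q.choose 2 - c ^ 2) := by
    set L : ℝ := (2 - √2) * q - 5 with hL
    have e1 : (m : ℝ) ≤ 2 ^ L := hm.le
    have e2 : (8 * (m : ℝ)) ^ (q - 2 * c) ≤ 2 ^ ((3 + L) * (q - 2 * c : ℕ)) := by
      rw [Real.rpow_mul (by norm_num), Real.rpow_natCast, Real.rpow_add (by norm_num)]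
      refine pow_le_pow_left₀ (by positivity) ?_ _
      have : (2 : ℝ) ^ (3 : ℝ) = 8 := by norm_num
      rw [this]
      linarith
    have e3 : (4 * (m : ℝ)) ^ c ≤ 2 ^ ((2 + L) * (c : ℕ)) := by
      rw [Real.rpow_mul (by norm_num), Real.rpow_natCast, Real.rpow_add (by norm_num)]
      refine pow_le_pow_left₀ (by positivity) ?_ _
      have : (2 : ℝ) ^ (2 : ℝ) = 4 := by norm_num
      rw [this]
      linarith
    have e4 : (3 : ℝ) ≤ 2 ^ (2 : ℝ) := by norm_num
    calc (3 : ℝ) * (8 * m) ^ (q - 2 * c) * (4 * m) ^ c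
        ≤ 2 ^ (2 : ℝ) * 2 ^ ((3 + L) * (q - 2 * c : ℕ)) * 2 ^ ((2 + L) * (c : ℕ)) := by
          gcongr
      _ = 2 ^ (2 + (3 + L) * (q - 2 * c : ℕ) + (2 + L) * (c : ℕ)) := by
          rw [← Real.rpow_add (by norm_num), ← Real.rpow_add (by norm_num)]
      _ ≤ 2 ^ (((q.choose 2 - c ^ 2 : ℕ) : ℝ)) := by
          refine Real.rpow_le_rpow_of_exponent_le (by norm_num) ?_
          rw [Nat.cast_sub hcc, Nat.cast_sub hcq, Nat.cast_choose_two]
          push_cast
          have id1 : (q : ℝ) ^ 2 / 2 - (c : ℝ) ^ 2 - (2 - √2) * q * (q - c) =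
              -((1 - √2 / 2) * q - c) ^ 2 := by
            linear_combination ((q : ℝ) ^ 2 / 4) * hs
          have id2 : ((1 - √2 / 2) * q - c) ^ 2 ≤ 1 := by
            rw [sq_le_one_iff_abs_le_one, abs_le]
            constructor <;> linarith
          have id3 : (c : ℝ) ≤ 0.3 * q := by nlinarith
          rw [hL]
          nlinarith
      _ = 2 ^ (q.choose 2 - c ^ 2) := Real.rpow_natCast _ _
  exact_mod_cast hmain

/-- **Main theorem.** -/
theorem result :
    (∀ q c m : ℕ, 3 ≤ q → 2 * c ≤ q →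
      3 * (8 * m) ^ (q - 2 * c) * (4 * m) ^ c ≤ 2 ^ (q.choose 2 - c ^ 2) →
        BreakerPrevents q m ∧ (m : ℕ∞) < moveNumber q) ∧
    (∀ q m : ℕ, 3 ≤ q → (m : ℝ) < 2 ^ ((2 - √2) * q - 5) →
      BreakerPrevents q m ∧ ¬ MakerWinsWithin q m) ∧
    (∀ q : ℕ, 3 ≤ q → ENNReal.ofReal (2 ^ ((2 - √2) * q - 5)) ≤ (moveNumber q : ℝ≥0∞)) := by
  refine ⟨fun q c m hq hc h => ?_, fun q m hq hm => ?_, fun q hq => ?_⟩
  · have h1 := criterion q c m (by omega) hc h
    exact ⟨h1, lt_moveNumber h1⟩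
  · have h1 := prevents q hq m hm
    exact ⟨h1, not_makerWins h1⟩
  · cases hM : moveNumber q with
    | top => simp
    | coe M =>
      rw [ENat.toENNReal_coe]
      by_contra hcon
      push Not at hcon
      have h1 : (M : ℝ) < 2 ^ ((2 - √2) * q - 5) := by
        rw [← ENNReal.ofReal_natCast] at hcon
        exact (ENNReal.ofReal_lt_ofReal_iff (by positivity)).1 hcon
      have h2 := lt_moveNumber (prevents q hq M h1)
      rw [hM] at h2
      exact lt_irrefl _ h2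

end Pool.Agent.Results.MP_278060_co.LowerBound
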